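import Pool.Agent.Y265.HY.DC3

/-!
# The fourth moment controls the mass of `f²` on all scales above the wavelength (MP_a54f13_nt)

The plane is `ℂ`, with the upper half plane `HH` and `dμ = dx dy / y²`. `dx f z`, `dy f z` are the
partial derivatives `fderiv ℝ f z 1`, `fderiv ℝ f z I`; `TF U φ` says that `φ : ℂ → ℝ` is smooth
with compact support contained in `U`.

Let `f` have spectral parameter `t → ∞` and satisfy microlocal quantum unique ergodicity (a theorem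
for Hecke-Maass cusp forms). The test functions `G` may depend on `f`, and vary on any scale
`≥ t^(-1+δ)`. If the fourth moment of `f` is asymptotically Gaussian (the case `n = 4`), then the
case `n = 2` holds on all these scales, for test functions bounded in `L²`.
-/

set_option autoImplicit false
open MeasureTheory Filter Topology Complex
open scoped ContDiff

namespace Pool.Agent.Results.MP_a54f13_nt.FourthMomentAllScales

open Pool.Agent.W745.RW (TF dx dy lap)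

/-- the open upper half plane -/
def HH : Set ℂ := {z | 0 < z.im}

/-- the eigenvalue `1/4 + t²` -/
noncomputable def ev (t : ℝ) : ℝ := 1 / 4 + t ^ 2

/-- `f` is a smooth real solution of `-y² (∂x² + ∂y²) f = (1/4 + t²) f` on the upper half plane -/
def Eig (t : ℝ) (f : ℂ → ℝ) : Prop :=
  ContDiffOn ℝ ∞ f HH ∧ ∀ z ∈ HH, -(z.im ^ 2 * (dx (dx f) z + dy (dy f) z)) = ev t * f z

/-- the operator `f ↦ lam^{-1/2} y (∂x f - i ∂y f)` -/
noncomputable def RO (lam : ℝ) (f : ℂ → ℂ) (z : ℂ) : ℂ :=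
  ((z.im / √lam : ℝ) : ℂ) * (dx f z - I * dy f z)

/-- quantum unique ergodicity in microlocal form: `∫ φ f (RO^k f) dμ → ∫ φ dμ` for `k = 0`, and
`→ 0` for `k ≥ 1` -/
def QUE (t : ℕ → ℝ) (f : ℕ → ℂ → ℝ) : Prop :=
  ∀ φ, TF HH φ → ∀ k : ℕ, Tendsto (fun n => ∫ z, ((φ z / z.im ^ 2 : ℝ) : ℂ) *
    ((f n z : ℂ) * (RO (ev (t n)))^[k] (fun w => (f n w : ℂ)) z)) atTop
    (𝓝 (if k = 0 then ((∫ z, φ z / z.im ^ 2 : ℝ) : ℂ) else 0))

/-- the integral `∫ ψ F dμ` -/
noncomputable def II (ψ F : ℂ → ℝ) : ℝ := ∫ z, ψ z * F z / z.im ^ 2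

/-- the excess `∫ ψ f⁴ dμ - 3 ∫ ψ dμ` of the fourth moment -/
noncomputable def ex (ψ f : ℂ → ℝ) : ℝ :=
  (∫ z, ψ z * f z ^ 4 / z.im ^ 2) - 3 * ∫ z, ψ z / z.im ^ 2

lemma ev_pos (t : ℝ) : 0 < ev t := by unfold ev; positivity

lemma HHo : IsOpen HH := isOpen_lt continuous_const continuous_im

lemma ev_lim {t : ℕ → ℝ} (ht : Tendsto t atTop atTop) :
    Tendsto (fun n => ev (t n)) atTop atTop :=
  tendsto_atTop_add_const_left _ _ ((tendsto_pow_atTop two_ne_zero).comp ht)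

lemma cmp_bd {K : Set ℂ} (hK : IsCompact K) (hKH : K ⊆ HH) : ∃ C : ℝ, 0 < C ∧
    ∀ F : ℂ → ℝ, ContinuousOn F K → (∀ z, 0 ≤ F z) →
      ∫ z in K, F z ≤ C * ∫ z in K, F z / z.im ^ 2 := by
  have him : ContDiff ℝ ∞ (fun z : ℂ => z.im) := imCLM.contDiff
  obtain ⟨C, hC⟩ := hK.exists_bound_of_continuousOn
    ((him.continuous.pow 2).continuousOn (s := K))
  refine ⟨|C| + 1, by positivity, fun F hF hF0 => ?_⟩
  have i1 : IntegrableOn F K := hF.integrableOn_compact hK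
  have i2 : IntegrableOn (fun z => (|C| + 1) * (F z / z.im ^ 2)) K := by
    refine ContinuousOn.integrableOn_compact hK ?_
    refine continuousOn_const.mul (hF.div (him.continuous.pow 2).continuousOn fun z hz => ?_)
    have : 0 < z.im := hKH hz
    positivity
  rw [← integral_const_mul]
  refine setIntegral_mono_on i1 i2 hK.measurableSet fun z hz => ?_
  have h3 : 0 < z.im := hKH hz
  have h4 : z.im ^ 2 ≤ |C| + 1 := by
    have h7 : ‖z.im ^ 2‖ ≤ C := hC z hz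
    rw [Real.norm_eq_abs, abs_of_nonneg (pow_nonneg h3.le 2)] at h7
    linarith [le_abs_self C]
  rw [mul_div_assoc', le_div_iff₀ (pow_pos h3 2), mul_comm]
  exact mul_le_mul_of_nonneg_right h4 (hF0 z)

lemma data {t : ℕ → ℝ} (ht : Tendsto t atTop atTop)
    {f : ℕ → ℂ → ℝ} (hf : ∀ n, Eig (t n) (f n)) (hqe : QUE t f) :
    Pool.Agent.Y265.HY.JC.JD Pool.Agent.TH421.DF.HP (fun n => ev (t n)) (fun n => ev (t n)) f
      (fun _ _ => 0) where
  op := HHo
  hU := fun z hz => hz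
  lp := fun n => ev_pos _
  ll := ev_lim ht
  mp := fun n => ev_pos _
  ml := ev_lim ht
  us := fun n => (hf n).1
  gs := fun n => contDiffOn_const
  ue := fun n z hz => by
    have h1 := (hf n).2 z hz
    have h2 : lap (f n) z = dx (dx (f n)) z + dy (dy (f n)) z := rfl
    rw [h2]; linarith
  ge := fun n z hz => by
    have e0 : lap (fun _ : ℂ => (0 : ℝ)) z =
      fderiv ℝ (fun w => fderiv ℝ (fun _ : ℂ => (0 : ℝ)) w 1) z 1 +
      fderiv ℝ (fun w => fderiv ℝ (fun _ : ℂ => (0 : ℝ)) w I) z I := rfl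
    rw [e0]; simp
  gb := fun K hK hKH => ⟨0, Eventually.of_forall fun n => by simp⟩
  qe := hqe

lemma tf {ψ : ℂ → ℝ} (hψ : TF HH ψ) : TF HH (fun z => ψ z / z.im ^ 2) := by
  have sy : ContDiffOn ℝ ∞ (fun z : ℂ => (z.im ^ 2)⁻¹) HH := by
    refine ContDiffOn.inv ((imCLM.contDiff.pow 2).contDiffOn) fun z hz => ?_
    have : 0 < z.im := hz
    exact pow_ne_zero 2 this.ne'
  exact Pool.Agent.TH294.RS.TF.mulc HHo hψ sy

open Pool.Agent.TH421.DF Pool.Agent.TH294.RS Pool.Agent.TH294.RG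

/-- iterated partial derivatives -/
noncomputable def DD : List ℂ → (ℂ → ℝ) → ℂ → ℝ
  | [], G => G
  | v :: l, G => fun z => fderiv ℝ (DD l G) z v

/-- the `k`-th partial derivatives of `G n` are locally `O((t n)^((1-δ) k + M))` -/
def Slow (t : ℕ → ℝ) (δ M : ℝ) (G : ℕ → ℂ → ℝ) : Prop :=
  (∀ n, ContDiffOn ℝ ∞ (G n) HH) ∧ ∀ l : List ℂ, (∀ v ∈ l, v = 1 ∨ v = I) →
    ∀ K : Set ℂ, IsCompact K → K ⊆ HH → ∃ C : ℝ, ∀ᶠ n in atTop, ∀ z ∈ K,
      |DD l (G n) z| ≤ C * t n ^ ((1 - δ) * l.length + M)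

lemma DD_sm {G : ℂ → ℝ} (hG : ContDiffOn ℝ ∞ G HH) (l : List ℂ) : ContDiffOn ℝ ∞ (DD l G) HH := by
  induction l with
  | nil => exact hG
  | cons v l ih => exact (ih.fderiv_of_isOpen HHo (by simp)).clm_apply contDiffOn_const

lemma sk_of {t h : ℕ → ℝ} {δ M : ℝ} {G : ℕ → ℂ → ℝ} (H : Slow t δ M G) {m : ℕ}
    (hp : ∀ n, 0 < h n)
    (hb : ∀ k : ℕ, ∀ᶠ n in atTop, 0 ≤ t n ^ ((1 - δ) * k + M) ∧
      h n ^ k * t n ^ ((1 - δ) * k + M) * h n ^ m ≤ 1) (j : ℕ) :
    ∀ l : List ℂ, (∀ v ∈ l, v = 1 ∨ v = I) →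
      SK HP h m j (fun n z => ((h n ^ l.length * DD l (G n) z : ℝ) : ℂ)) := by
  have base : ∀ l : List ℂ, (∀ v ∈ l, v = 1 ∨ v = I) →
      SP HP h m (fun n z => ((h n ^ l.length * DD l (G n) z : ℝ) : ℂ)) := by
    intro l hl
    refine ⟨fun n => Complex.ofRealCLM.contDiff.comp_contDiffOn
      (contDiffOn_const.mul (DD_sm (H.1 n) l)), fun K hK hKH => ?_⟩
    obtain ⟨C, hC⟩ := H.2 l hl K hK hKH
    refine ⟨|C|, abs_nonneg _, ?_⟩
    filter_upwards [hC, hb l.length] with n h1 h2 z hz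
    have a0 := hp n
    rw [Complex.norm_real, Real.norm_eq_abs, abs_mul, abs_of_pos (pow_pos a0 _)]
    have a1 := h1 z hz
    have a2 : C * t n ^ ((1 - δ) * l.length + M) ≤ |C| * t n ^ ((1 - δ) * l.length + M) :=
      mul_le_mul_of_nonneg_right (le_abs_self C) h2.1
    calc h n ^ l.length * |DD l (G n) z| * h n ^ m ≤
        h n ^ l.length * (|C| * t n ^ ((1 - δ) * l.length + M)) * h n ^ m := by
          refine mul_le_mul_of_nonneg_right ?_ (pow_nonneg a0.le _)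
          exact mul_le_mul_of_nonneg_left (a1.trans a2) (pow_nonneg a0.le _)
      _ = |C| * (h n ^ l.length * t n ^ ((1 - δ) * l.length + M) * h n ^ m) := by ring
      _ ≤ |C| * 1 := mul_le_mul_of_nonneg_left h2.2 (abs_nonneg _)
      _ = |C| := mul_one _
  induction j with
  | zero => exact base
  | succ j ih =>
    intro l hl
    have key : ∀ v : ℂ, (v = 1 ∨ v = I) → SK HP h m j (hd h v
        (fun n z => ((h n ^ l.length * DD l (G n) z : ℝ) : ℂ))) := by
      intro v hv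
      have hl' : ∀ w ∈ v :: l, w = 1 ∨ w = I := by
        intro w hw
        rcases List.mem_cons.1 hw with h | h
        · rw [h]; exact hv
        · exact hl w h
      refine (ih (v :: l) hl').congr HPo fun n z hz => ?_
      have d1 : DifferentiableAt ℝ (DD l (G n)) z :=
        ((DD_sm (H.1 n) l).contDiffAt (HPo.mem_nhds hz)).differentiableAt (by simp)
      have d2 : HasFDerivAt (fun z => h n ^ l.length * DD l (G n) z)
          (h n ^ l.length • fderiv ℝ (DD l (G n)) z) z := d1.hasFDerivAt.const_mul _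
      have d4 : HasFDerivAt (fun z => ((h n ^ l.length * DD l (G n) z : ℝ) : ℂ))
          (Complex.ofRealCLM.comp (h n ^ l.length • fderiv ℝ (DD l (G n)) z)) z :=
        Complex.ofRealCLM.hasFDerivAt.comp z d2
      simp only [hd]
      rw [d4.fderiv]
      simp only [ContinuousLinearMap.comp_apply, smul_apply, smul_eq_mul, Complex.ofRealCLM_apply,
        List.length_cons, DD]
      push_cast; ring
    exact ⟨base l hl, key 1 (Or.inl rfl), key I (Or.inr rfl)⟩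

/-- **Result.** Let `δ > 0` and `M ≥ 0`. Let `f n` be real eigenfunctions of the hyperbolic
Laplacian on the upper half plane with spectral parameters `t n → ∞` that satisfy microlocal quantum
unique ergodicity, and let `G n` be smooth functions whose `k`-th partial derivatives are locally
`O((t n)^((1-δ) k + M))`, for all `k ≥ 0`. Let `ψ`, `χ` be test functions with `|ψ| ≤ χ`.

1. For every `ε > 0`, eventually `|∫ ψ (f² - 1) G dμ|` is at most
`√((2/3 (∫ χ f⁴ dμ - 3 ∫ χ dμ) + ε) ∫ χ G² dμ) + ε`.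
2. If `∫ χ f⁴ dμ → 3 ∫ χ dμ` and `∫ χ G² dμ` is bounded, then `∫ ψ f² G dμ - ∫ ψ G dμ → 0`. -/
theorem result (δ M : ℝ) (hδ : 0 < δ) (hM0 : 0 ≤ M) (t : ℕ → ℝ) (f : ℕ → ℂ → ℝ)
    (ht : Tendsto t atTop atTop) (hf : ∀ n, Eig (t n) (f n)) (hqe : QUE t f)
    (G : ℕ → ℂ → ℝ) (hGs : Slow t δ M G)
    (ψ χ : ℂ → ℝ) (hψ : TF HH ψ) (hχ : TF HH χ) (hψχ : ∀ z, |ψ z| ≤ χ z) :
    (∀ ε : ℝ, 0 < ε → ∀ᶠ n in atTop,
      |II ψ (fun z => (f n z ^ 2 - 1) * G n z)| ≤
        √((2 / 3 * ex χ (f n) + ε) * II χ (fun z => G n z ^ 2)) + ε) ∧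
    (Tendsto (fun n => ex χ (f n)) atTop (𝓝 0) →
      (∃ C : ℝ, ∀ᶠ n in atTop, II χ (fun z => G n z ^ 2) ≤ C) →
      Tendsto (fun n => II ψ (fun z => f n z ^ 2 * G n z) -
        II ψ (fun z => G n z)) atTop (𝓝 0)) := by
  obtain ⟨d, hd⟩ : ∃ d : ℝ, d = min δ (1 / 2) := ⟨_, rfl⟩
  have d0 : 0 < d := by rw [hd]; positivity
  have d1 : d ≤ δ := by rw [hd]; exact min_le_left _ _
  have d2 : d ≤ 1 / 2 := by rw [hd]; exact min_le_right _ _
  obtain ⟨τ, hτ⟩ : ∃ τ : ℕ → ℝ, ∀ n, τ n = max (t n) 1 := ⟨_, fun _ => rfl⟩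
  have τ1 : ∀ n, 1 ≤ τ n := fun n => by rw [hτ]; exact le_max_right _ _
  have τ0 : ∀ n, 0 < τ n := fun n => lt_of_lt_of_le one_pos (τ1 n)
  have τt : ∀ᶠ n in atTop, τ n = t n := by
    filter_upwards [ht.eventually_ge_atTop 1] with n hn
    rw [hτ, max_eq_left hn]
  have τl : Tendsto τ atTop atTop :=
    tendsto_atTop_mono (fun n => by rw [hτ]; exact le_max_left _ _) ht
  -- the slow scale
  obtain ⟨h, hh'⟩ : ∃ h : ℕ → ℝ, ∀ n, h n = τ n ^ (-(1 - d)) := ⟨_, fun _ => rfl⟩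
  have hp : ∀ n, 0 < h n := fun n => by rw [hh']; exact Real.rpow_pos_of_pos (τ0 n) _
  have hh : Tendsto h atTop (𝓝 0) := by
    have := (tendsto_rpow_neg_atTop (y := 1 - d) (by linarith)).comp τl
    exact this.congr fun n => (hh' n).symm
  obtain ⟨m, hm⟩ : ∃ m : ℕ, 2 * M ≤ m := exists_nat_ge _
  have hb : ∀ k : ℕ, ∀ᶠ n in atTop, 0 ≤ t n ^ ((1 - δ) * k + M) ∧
      h n ^ k * t n ^ ((1 - δ) * k + M) * h n ^ m ≤ 1 := by
    intro k
    filter_upwards [τt] with n hn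
    rw [← hn]
    refine ⟨Real.rpow_nonneg (τ0 n).le _, ?_⟩
    have e1 : ∀ q : ℕ, h n ^ q = τ n ^ (-(1 - d) * q) := fun q => by
      rw [hh', ← Real.rpow_natCast, ← Real.rpow_mul (τ0 n).le]
    rw [e1, e1, ← Real.rpow_add (τ0 n), ← Real.rpow_add (τ0 n)]
    refine Real.rpow_le_one_of_one_le_of_nonpos (τ1 n) ?_
    have k0 : (0 : ℝ) ≤ k := Nat.cast_nonneg k
    have m0 : (0 : ℝ) ≤ m := Nat.cast_nonneg m
    nlinarith [mul_nonneg (sub_nonneg.2 d1) k0, mul_nonneg (sub_nonneg.2 d2) m0]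
  have hG : ∀ j, SK HP h m j (fun n z => ((G n z : ℝ) : ℂ)) := by
    intro j
    refine (sk_of hGs hp hb j [] (by simp)).congr HPo fun n z _ => ?_
    simp [DD]
  obtain ⟨N, hN⟩ : ∃ N : ℕ, ((m : ℝ) + 1) / (2 * d) ≤ N := exists_nat_ge _
  have hN' : (m : ℝ) + 1 ≤ 2 * d * N := by
    rw [div_le_iff₀ (by positivity)] at hN; linarith
  have N0 : 0 < N := by
    rcases Nat.eq_zero_or_pos N with h0 | h0
    · rw [h0] at hN'
      have : (0 : ℝ) ≤ m := Nat.cast_nonneg m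
      simp at hN'
      linarith
    · exact h0
  have hi : ∀ i, N ≤ i → Tendsto (fun n =>
      ((Pool.Agent.Y265.HY.JC.hh (fun n => ev (t n)) n / h n) ^ 2) ^ i * (h n ^ m)⁻¹) atTop
      (𝓝 0) := by
    intro i hiN
    have tz : Tendsto (fun n => (τ n)⁻¹) atTop (𝓝 0) := tendsto_inv_atTop_zero.comp τl
    refine squeeze_zero' (Eventually.of_forall fun n => ?_) ?_ tz
    · have := hp n
      positivity
    filter_upwards [τt] with n hτn
    have b0 : 0 < Pool.Agent.Y265.HY.JC.hh (fun n => ev (t n)) n :=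
      div_pos one_pos (Real.sqrt_pos.2 (ev_pos _))
    have b1 : Pool.Agent.Y265.HY.JC.hh (fun n => ev (t n)) n ≤ τ n ^ (-(1 : ℝ)) := by
      rw [Real.rpow_neg (τ0 n).le, Real.rpow_one]
      show 1 / √(ev (t n)) ≤ (τ n)⁻¹
      rw [one_div]
      refine inv_anti₀ (τ0 n) ?_
      refine Real.le_sqrt_of_sq_le ?_
      rw [hτn, ev]; linarith
    have b2 : (Pool.Agent.Y265.HY.JC.hh (fun n => ev (t n)) n / h n) ≤ τ n ^ (-d) := by
      rw [div_le_iff₀ (hp n), hh', ← Real.rpow_add (τ0 n)]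
      have : -d + -(1 - d) = -(1 : ℝ) := by ring
      rw [this]; exact b1
    have b3 : ((Pool.Agent.Y265.HY.JC.hh (fun n => ev (t n)) n / h n) ^ 2) ^ i ≤
        τ n ^ (-(2 * d * N)) := by
      rw [← pow_mul]
      have c1 : (Pool.Agent.Y265.HY.JC.hh (fun n => ev (t n)) n / h n) ^ (2 * i) ≤
          (τ n ^ (-d)) ^ (2 * i) := pow_le_pow_left₀ (div_pos b0 (hp n)).le b2 _
      refine c1.trans ?_
      rw [← Real.rpow_natCast, ← Real.rpow_mul (τ0 n).le]
      refine Real.rpow_le_rpow_of_exponent_le (τ1 n) ?_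
      have c2 : (N : ℝ) ≤ i := by exact_mod_cast hiN
      push_cast
      nlinarith
    have b4 : (h n ^ m)⁻¹ ≤ τ n ^ (m : ℝ) := by
      rw [hh', ← Real.rpow_natCast, ← Real.rpow_mul (τ0 n).le, ← Real.rpow_neg (τ0 n).le]
      refine Real.rpow_le_rpow_of_exponent_le (τ1 n) ?_
      have : (0 : ℝ) ≤ m := Nat.cast_nonneg m
      nlinarith
    have hpn := hp n
    calc ((Pool.Agent.Y265.HY.JC.hh (fun n => ev (t n)) n / h n) ^ 2) ^ i * (h n ^ m)⁻¹ ≤
        τ n ^ (-(2 * d * N)) * τ n ^ (m : ℝ) :=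
          mul_le_mul b3 b4 (by positivity) (Real.rpow_nonneg (τ0 n).le _)
      _ = τ n ^ (-(2 * d * N) + m) := (Real.rpow_add (τ0 n) _ _).symm
      _ ≤ τ n ^ (-(1 : ℝ)) := Real.rpow_le_rpow_of_exponent_le (τ1 n) (by linarith)
      _ = (τ n)⁻¹ := by rw [Real.rpow_neg (τ0 n).le, Real.rpow_one]
  have D := data ht hf hqe
  have sP : ∀ n, ContinuousOn (fun z => G n z) HP := fun n => (hGs.1 n).continuousOn
  have hφχ : ∀ z : ℂ, |ψ z / z.im ^ 2| ≤ χ z / z.im ^ 2 := by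
    intro z
    rw [abs_div, abs_of_nonneg (sq_nonneg z.im)]
    exact div_le_div_of_nonneg_right (hψχ z) (sq_nonneg _)
  have part1 : ∀ ε : ℝ, 0 < ε → ∀ᶠ n in atTop,
      |II ψ (fun z => (f n z ^ 2 - 1) * G n z)| ≤
        √((2 / 3 * ex χ (f n) + ε) * II χ (fun z => G n z ^ 2)) + ε := by
    intro ε hε
    have k := Pool.Agent.Y265.HY.DC.dec D hp hh hG N N0 hi sP (tf hψ) (tf hχ) hφχ hε
    filter_upwards [k] with n hn
    have e1 : II ψ (fun z => (f n z ^ 2 - 1) * G n z) =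
        ∫ z, ψ z / z.im ^ 2 * ((f n z ^ 2 - 1) * G n z) := by
      unfold II; congr 1; funext z; ring
    have e2 : II χ (fun z => G n z ^ 2) =
        ∫ z, χ z / z.im ^ 2 * G n z ^ 2 := by
      unfold II; congr 1; funext z; ring
    have e3 : ex χ (f n) = (∫ z, χ z / z.im ^ 2 * f n z ^ 4) - 3 * ∫ z, χ z / z.im ^ 2 := by
      unfold ex; congr 2; funext z; ring
    rw [e1, e2, e3]
    exact hn
  refine ⟨part1, fun hex hbd => ?_⟩
  obtain ⟨C, hC⟩ := hbd
  rw [Metric.tendsto_atTop']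
  intro ε hε
  obtain ⟨η, hη⟩ : ∃ η : ℝ, η = min (ε / 4) (ε ^ 2 / (32 * (|C| + 1))) := ⟨_, rfl⟩
  have η0 : 0 < η := by rw [hη]; positivity
  have η1 : η ≤ ε / 4 := by rw [hη]; exact min_le_left _ _
  have η2 : η ≤ ε ^ 2 / (32 * (|C| + 1)) := by rw [hη]; exact min_le_right _ _
  have k := (part1 η η0).and (hC.and (hex.eventually (gt_mem_nhds η0)))
  rw [eventually_atTop] at k
  obtain ⟨n0, hn0⟩ := k
  refine ⟨n0, fun n hn => ?_⟩
  obtain ⟨p1, p2, p3⟩ := hn0 n hn.le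
  rw [dist_zero_right, Real.norm_eq_abs]
  have i1 : Integrable (fun z => ψ z * (f n z ^ 2 * G n z) / z.im ^ 2) := by
    have := Pool.Agent.W311.RW.int_mul HHo (tf hψ)
      (((hf n).1.continuousOn.pow 2).mul (sP n))
    refine this.congr (Eventually.of_forall fun z => ?_)
    show ψ z / z.im ^ 2 * (f n z ^ 2 * G n z) = _
    ring
  have i2 : Integrable (fun z => ψ z * (G n z) / z.im ^ 2) := by
    have := Pool.Agent.W311.RW.int_mul HHo (tf hψ) (sP n)
    refine this.congr (Eventually.of_forall fun z => ?_)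
    show ψ z / z.im ^ 2 * (G n z) = _
    ring
  have e1 : II ψ (fun z => f n z ^ 2 * G n z) - II ψ (fun z => G n z) =
      II ψ (fun z => (f n z ^ 2 - 1) * G n z) := by
    unfold II
    rw [← integral_sub i1 i2]
    congr 1; funext z; ring
  rw [e1]
  have b1 : (2 / 3 * ex χ (f n) + η) * II χ (fun z => G n z ^ 2) ≤
      (ε / 4) ^ 2 := by
    have m0 : 0 ≤ II χ (fun z => G n z ^ 2) := by
      refine integral_nonneg fun z => ?_
      have : 0 ≤ χ z := (abs_nonneg _).trans (hψχ z)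
      positivity
    have m1 : II χ (fun z => G n z ^ 2) ≤ |C| + 1 :=
      p2.trans ((le_abs_self C).trans (by linarith))
    have m2 : 2 / 3 * ex χ (f n) + η ≤ 2 * η := by linarith
    calc (2 / 3 * ex χ (f n) + η) * II χ (fun z => G n z ^ 2) ≤
        (2 * η) * II χ (fun z => G n z ^ 2) := mul_le_mul_of_nonneg_right m2 m0
      _ ≤ (2 * η) * (|C| + 1) := mul_le_mul_of_nonneg_left m1 (by positivity)
      _ ≤ (2 * (ε ^ 2 / (32 * (|C| + 1)))) * (|C| + 1) :=
          mul_le_mul_of_nonneg_right (by linarith) (by positivity)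
      _ = (ε / 4) ^ 2 := by field_simp; norm_num
  have b2 := Real.sqrt_le_sqrt b1
  rw [Real.sqrt_sq (by positivity)] at b2
  linarith

end Pool.Agent.Results.MP_a54f13_nt.FourthMomentAllScales
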