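import Pool.Agent.Y139.PD.P

/-!
# Limit laws of Maass forms (MP_a54f13_nt)

`Ω` is an open subset of the upper half plane `HH` of finite hyperbolic area, for instance the
interior `FD` of the standard fundamental domain of the modular group (the theorem contains the
finiteness of its area), `f n` are real solutions of `-y²(∂x² + ∂y²) f = (1/4 + t_n²) f` in `Ω`
with `t_n → ∞` and `∫_Ω f² dμ ≤ M μ(Ω)` for all large `n`.
`lapl f = ∂x² f + ∂y² f` is the definition of the file `AbsoluteContinuity` of MP_a52643_an.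
-/

set_option autoImplicit false
open MeasureTheory Filter Topology Complex
open scoped ContDiff ENNReal

namespace Pool.Agent.Results.MP_a54f13_nt.LimitLaws

noncomputable section

open Pool.Agent.Results.MP_a52643_an.AbsoluteContinuity (lapl)
open Pool.Agent.Y139.PD (area wfrac Bey WLim wmainM)

/-- the open upper half plane -/
def HH : Set ℂ := {z | 0 < z.im}

/-- the interior of the standard fundamental domain of the modular group -/
def FD : Set ℂ := {z | 0 < z.im ∧ |z.re| < 1 / 2 ∧ 1 < ‖z‖}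

/-- the hyperbolic area `dx dy / y²` on `Ω` -/
def mu (Ω : Set ℂ) : Measure ℂ :=
  (volume.restrict Ω).withDensity (fun z => ENNReal.ofReal (1 / z.im ^ 2))

/-- the total area of `Ω`, a real number -/
def vol (Ω : Set ℂ) : ℝ := (mu Ω Set.univ).toReal

/-- the fraction of the hyperbolic area of `Ω` on which `f` takes a value in `A` -/
def fraction (Ω : Set ℂ) (f : ℂ → ℝ) (A : Set ℝ) : ℝ :=
  (mu Ω {z | z ∈ Ω ∧ f z ∈ A}).toReal / vol Ω

/-- the values beyond `b`, seen from zero: `t ≥ b` if `b > 0`, and `t ≤ b` if `b < 0` -/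
def Beyond (b : ℝ) : Set ℝ := {t | b ∈ Set.uIcc 0 t}

/-- `ν` is the weak limit, along a subsequence, of the laws of `f n` for the normalised area -/
def IsWeakLimit (Ω : Set ℂ) (f : ℕ → ℂ → ℝ) (ν : Measure ℝ) : Prop :=
  ∃ σ : ℕ → ℕ, StrictMono σ ∧ ∀ g : ℝ → ℝ, Continuous g → (∃ M, ∀ x, |g x| ≤ M) →
    Tendsto (fun n => (∫ z, g (f (σ n) z) ∂(mu Ω)) / vol Ω) atTop (𝓝 (∫ x, g x ∂ν))

lemma FD_im {z : ℂ} (hz : z ∈ FD) : 1 / 2 < z.im := by
  obtain ⟨h1, h2, h3⟩ := hz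
  have h4 : 1 < ‖z‖ ^ 2 := by nlinarith
  rw [Complex.sq_norm, Complex.normSq_apply] at h4
  have h5 := abs_lt.1 h2
  nlinarith

lemma FD_open : IsOpen FD := by
  have h1 : IsOpen {z : ℂ | 0 < z.im} := isOpen_lt continuous_const continuous_im
  have h2 : IsOpen {z : ℂ | |z.re| < 1 / 2} := isOpen_lt continuous_re.abs continuous_const
  have h3 : IsOpen {z : ℂ | 1 < ‖z‖} := isOpen_lt continuous_const continuous_norm
  exact h1.inter (h2.inter h3)

lemma FD_fin : mu FD Set.univ ≠ ⊤ := by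
  unfold mu
  rw [withDensity_apply _ MeasurableSet.univ, Measure.restrict_univ]
  obtain ⟨S, hS⟩ : ∃ S : Set (ℝ × ℝ), S = Set.Icc (-1) 1 ×ˢ Set.Ioi (1 / 2 : ℝ) := ⟨_, rfl⟩
  have mS : MeasurableSet S := by
    rw [hS]; exact measurableSet_Icc.prod measurableSet_Ioi
  have h1 : FD ⊆ Complex.measurableEquivRealProd ⁻¹' S := by
    intro z hz
    have h2 := FD_im hz
    have h3 := abs_lt.1 hz.2.1
    show (z.re, z.im) ∈ S
    rw [hS]
    exact ⟨⟨by simp only; linarith, by simp only; linarith⟩, h2⟩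
  have h2 : ∫⁻ z in FD, ENNReal.ofReal (1 / z.im ^ 2) ≤
      ∫⁻ z in Complex.measurableEquivRealProd ⁻¹' S, ENNReal.ofReal (1 / z.im ^ 2) :=
    lintegral_mono_set h1
  have h3 : ∫⁻ z in Complex.measurableEquivRealProd ⁻¹' S, ENNReal.ofReal (1 / z.im ^ 2) =
      ∫⁻ p in S, ENNReal.ofReal (1 / p.2 ^ 2) := by
    exact (Complex.volume_preserving_equiv_real_prod.setLIntegral_comp_preimage mS
      (f := fun p : ℝ × ℝ => ENNReal.ofReal (1 / p.2 ^ 2)) (by fun_prop))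
  have h4 : ∫⁻ p in S, ENNReal.ofReal (1 / p.2 ^ 2) =
      ∫⁻ x in Set.Icc (-1 : ℝ) 1, ∫⁻ y in Set.Ioi (1 / 2 : ℝ), ENNReal.ofReal (1 / y ^ 2) := by
    rw [hS, Measure.volume_eq_prod, ← Measure.prod_restrict]
    exact lintegral_prod _ (by fun_prop)
  have h5 : IntegrableOn (fun y : ℝ => 1 / y ^ 2) (Set.Ioi (1 / 2)) := by
    have := integrableOn_Ioi_rpow_of_lt (a := -2) (by norm_num) (c := 1 / 2) (by norm_num)
    refine this.congr_fun (fun y hy => ?_) measurableSet_Ioi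
    have y0 : 0 < y := lt_trans (by norm_num) hy
    show y ^ (-2 : ℝ) = 1 / y ^ 2
    rw [Real.rpow_neg y0.le, one_div]
    norm_num
  have h6 : ∫⁻ y in Set.Ioi (1 / 2 : ℝ), ENNReal.ofReal (1 / y ^ 2) ≠ ⊤ := by
    have := h5.lintegral_lt_top
    exact this.ne
  refine ne_top_of_le_ne_top ?_ (h2.trans (h3.trans h4).le)
  rw [setLIntegral_const]
  exact ENNReal.mul_ne_top h6 (by simp)

/-- **Limit laws of Maass forms.** -/
theorem result : (IsOpen FD ∧ FD.Nonempty ∧ FD ⊆ HH ∧ mu FD Set.univ ≠ ⊤) ∧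
    ∃ C : ℝ, ∀ (M : ℝ) (Ω : Set ℂ) (t : ℕ → ℝ) (f : ℕ → ℂ → ℝ), 0 < M → IsOpen Ω → Ω.Nonempty →
    Ω ⊆ HH → mu Ω Set.univ ≠ ⊤ → Tendsto t atTop atTop → (∀ n, ContDiffOn ℝ ∞ (f n) Ω) →
    (∀ n, ∀ z ∈ Ω, -(z.im ^ 2 * lapl (f n) z) = (1 / 4 + t n ^ 2) * f n z) →
    (∀ᶠ n in atTop, Integrable (fun z => f n z ^ 2) (mu Ω) ∧
      ∫ z, f n z ^ 2 ∂(mu Ω) ≤ M * vol Ω) →
      (∀ ε : ℝ, 0 < ε → ∀ᶠ n in atTop, ∀ (b : ℝ) (A : Set ℝ), MeasurableSet A →
        A ⊆ Set.uIoo 0 b → ε ≤ |b| * fraction Ω (f n) (Beyond b) →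
        (volume A).toReal * (|b| * fraction Ω (f n) (Beyond b)) ^ 3 ≤
          C * M ^ 2 * fraction Ω (f n) A) ∧
      ∀ ν : Measure ℝ, IsProbabilityMeasure ν → IsWeakLimit Ω f ν →
        (Integrable (fun x => x ^ 2) ν ∧ ∫ x, x ^ 2 ∂ν ≤ M ∧ ∫ x, x ∂ν = 0) ∧
        (∀ (b : ℝ) (A : Set ℝ), MeasurableSet A → A ⊆ Set.uIoo 0 b →
          (volume A).toReal * (|b| * (ν (Beyond b)).toReal) ^ 3 ≤ C * M ^ 2 * (ν A).toReal) ∧
        (ν {0} = 1 ∨ ∃ J : Set ℝ, IsOpen J ∧ J.OrdConnected ∧ (0 : ℝ) ∈ J ∧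
          ν.restrict {0}ᶜ ≪ volume.restrict J ∧ volume.restrict J ≪ ν.restrict {0}ᶜ) := by
  refine ⟨⟨FD_open, ⟨2 * I, ?_⟩, fun z hz => hz.1, FD_fin⟩, ?_⟩
  · refine ⟨?_, ?_, ?_⟩ <;> simp
  obtain ⟨C, hC⟩ := wmainM
  refine ⟨C, fun M Ω t f M0 oΩ ne hH fin ht sf eq hev => ?_⟩
  have im0 : ∀ z ∈ Ω, (0 : ℝ) < z.im := fun z hz => hH hz
  have sρ : ContDiffOn ℝ ∞ (fun z : ℂ => 1 / z.im ^ 2) Ω := by
    have : ContDiff ℝ ∞ (fun z : ℂ => z.im) := imCLM.contDiff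
    exact contDiffOn_const.div (this.pow 2).contDiffOn fun z hz => by
      have := im0 z hz
      positivity
  have ll : Tendsto (fun n => 1 / 4 + t n ^ 2) atTop atTop :=
    tendsto_atTop_add_const_left _ _ ((tendsto_pow_atTop two_ne_zero).comp ht)
  exact hC M Ω (fun z => 1 / z.im ^ 2) (fun n => 1 / 4 + t n ^ 2) f M0 oΩ ne sρ
    (fun z hz => by
      have := im0 z hz
      positivity) fin ll sf
    (fun n z hz => by
      have h1 := eq n z hz
      have h2 := im0 z hz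
      have h3 : z.im ^ 2 ≠ 0 := by positivity
      have h4 : lapl (f n) z = -((1 / 4 + t n ^ 2) * f n z) / z.im ^ 2 := by
        rw [eq_div_iff h3]
        linarith
      show lapl (f n) z + (1 / 4 + t n ^ 2) * (1 / z.im ^ 2 * f n z) = 0
      rw [h4]
      field_simp
      ring) hev

end

end Pool.Agent.Results.MP_a54f13_nt.LimitLaws
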