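import Pool.Agent.Y265.HY.PS2

/-!
# The power spectrum of the square of a Hecke-Maass form, with error `o(1)` (MP_a54f13_nt)

The plane is `ℂ`, with the upper half plane `HH` and `dμ = dx dy / y²`. `dx f z`, `dy f z` are the
partial derivatives `fderiv ℝ f z 1`, `fderiv ℝ f z I`; `TF U φ` says that `φ : ℂ → ℝ` is smooth
with compact support contained in `U`. `RO lam f = lam^{-1/2} y (∂x f - i ∂y f)` is the normalised
frame derivative, `L lam g = - lam⁻¹ y² (∂x² + ∂y²) g` the normalised hyperbolic Laplacian, and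
`opF F lam g = F(L lam) g = ∑ F_i (L lam)^i g` for a real polynomial `F = ∑ F_i x^i`.

The hypothesis `hqe` is quantum unique ergodicity in its microlocal form:
`∫ φ f (RO^k f) dμ → ∫ φ dμ` for `k = 0`, and `→ 0` for `k ≥ 1`.

The theorem computes `∫ ψ (F(L) f²)² dμ` for every polynomial `F` in terms of the single moment
`∫ ψ f⁴ dμ`, with an error `o(1)`; no bound of the fourth moments is assumed. If `F(0) = F(4) = 0`
there is no unknown left: the part of `f²` with frequencies away from `0` and from twice the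
frequency of `f` has the mean square predicted by the random wave model. So the random wave
prediction for the fourth moment can only fail by an excess of mass of `f²` at the frequencies `0`
and `2`, in the ratio `2 : 1`.

Proof idea. Killing derivatives of `f` are exact eigenfunctions; products of two of them define
divergence free tensors, flat in the Klein model, and a compensated compactness identity gives the
limits of null quartic forms with no `L⁴` bound. A radial energy estimate gives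
`λ^{-1/2} |f|² → 0` locally uniformly, so that all quartic error terms with a factor `λ^{-1/2}`
vanish. This determines the fourth moments `∫ ψ W_j W_{-j} W_k W_{-k} dμ` of the components of the
field up to the fourth moment of `f`, and `F(L) f²` is a combination of the `W_j W_{-j}` up to
`O(λ^{-1/2})` terms of the right form.
-/

set_option autoImplicit false
open MeasureTheory Filter Topology Complex
open scoped ContDiff

namespace Pool.Agent.Results.MP_a54f13_nt.SharpPowerSpectrum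

open Pool.Agent.W745.RW (TF dx dy lap)

/-- the open upper half plane -/
def HH : Set ℂ := {z | 0 < z.im}

/-- the operator `f ↦ lam^{-1/2} y (∂x f - i ∂y f)` -/
noncomputable def RO (lam : ℝ) (f : ℂ → ℂ) (z : ℂ) : ℂ :=
  ((z.im / √lam : ℝ) : ℂ) * (dx f z - I * dy f z)

/-- the hyperbolic Laplacian `-y² (∂x² + ∂y²)` divided by `lam` -/
noncomputable def L (lam : ℝ) (g : ℂ → ℝ) (z : ℂ) : ℝ :=
  -(z.im ^ 2 * (dx (dx g) z + dy (dy g) z)) / lam

/-- the polynomial `F` in the operator `L lam`, applied to `g` -/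
noncomputable def opF (F : Polynomial ℝ) (lam : ℝ) (g : ℂ → ℝ) (z : ℂ) : ℝ :=
  F.sum fun i c => c * (L lam)^[i] g z

/-- the value of `∫ (F(L) f²)² dμ / area` for the Gaussian random wave:
`F(0)² + π⁻¹ ∫_0^{2π} F(2 - 2 cos θ)² dθ` -/
noncomputable def gauss (F : Polynomial ℝ) : ℝ :=
  F.eval 0 ^ 2 + 1 / Real.pi * ∫ θ in (0 : ℝ)..(2 * Real.pi), F.eval (2 - 2 * Real.cos θ) ^ 2

/-- **Result.** Let `f n` be real solutions of `-y²(∂x² + ∂y²) f = (1/4 + t_n²) f` on the upper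
half plane, `t_n → ∞`, satisfying microlocal quantum unique ergodicity, and let `ψ` be a test
function. Then for every real polynomial `F`, `∫ ψ (F(L) f²)² dμ` equals the Gaussian value
`gauss F ∫ ψ dμ` plus `(2 F(0)² + F(4)²) / 3` times the defect `∫ ψ f⁴ dμ - 3 ∫ ψ dμ` of the fourth
moment, up to an error `o(1)`. In particular, if `F(0) = F(4) = 0`, then
`∫ ψ (F(L) f²)² dμ → gauss F ∫ ψ dμ`. -/
theorem result (t : ℕ → ℝ) (ht : Tendsto t atTop atTop) (f : ℕ → ℂ → ℝ)
    (hf : ∀ n, ContDiffOn ℝ ∞ (f n) HH)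
    (heq : ∀ n, ∀ z ∈ HH,
      -(z.im ^ 2 * (dx (dx (f n)) z + dy (dy (f n)) z)) = (1 / 4 + t n ^ 2) * f n z)
    (hqe : ∀ φ, TF HH φ → ∀ k : ℕ, Tendsto (fun n => ∫ z, ((φ z / z.im ^ 2 : ℝ) : ℂ) *
      ((f n z : ℂ) * (RO (1 / 4 + t n ^ 2))^[k] (fun w => (f n w : ℂ)) z)) atTop
      (𝓝 (if k = 0 then ((∫ z, φ z / z.im ^ 2 : ℝ) : ℂ) else 0)))
    (ψ : ℂ → ℝ) (hψ : TF HH ψ) (F : Polynomial ℝ) :
    Tendsto (fun n =>
      (∫ z, ψ z * opF F (1 / 4 + t n ^ 2) (fun w => f n w ^ 2) z ^ 2 / z.im ^ 2)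
        - (2 * F.eval 0 ^ 2 + F.eval 4 ^ 2) / 3 *
          ((∫ z, ψ z * f n z ^ 4 / z.im ^ 2) - 3 * ∫ z, ψ z / z.im ^ 2)) atTop
      (𝓝 (gauss F * ∫ z, ψ z / z.im ^ 2)) := by
  have hΩ : IsOpen HH := isOpen_lt continuous_const continuous_im
  have hU : ∀ z ∈ HH, 0 < z.im := fun z hz => hz
  have hpos : ∀ n, 0 < 1 / 4 + t n ^ 2 := fun n => by positivity
  have hlam : Tendsto (fun n => 1 / 4 + t n ^ 2) atTop atTop :=
    tendsto_atTop_add_const_left _ _ ((tendsto_pow_atTop two_ne_zero).comp ht)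
  have heq' : ∀ n, ∀ z ∈ HH, z.im ^ 2 * lap (f n) z + (1 / 4 + t n ^ 2) * f n z = 0 := by
    intro n z hz
    have h1 := heq n z hz
    have h2 : lap (f n) z = dx (dx (f n)) z + dy (dy (f n)) z := rfl
    rw [h2]; linarith
  obtain ⟨S, E⟩ := Pool.Agent.Y265.HY.hyp_sys hΩ hU hpos hlam hf heq' hqe
  have sy : ContDiffOn ℝ ∞ (fun z : ℂ => (z.im ^ 2)⁻¹) HH := by
    refine ContDiffOn.inv ((imCLM.contDiff.pow 2).contDiffOn) fun z hz => ?_
    exact pow_ne_zero 2 (hU z hz).ne'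
  have tφ : TF HH (fun z => ψ z / z.im ^ 2) := Pool.Agent.TH294.RS.TF.mulc hΩ hψ sy
  have key := Pool.Agent.Y265.HY.PS.spec_c S hU E tφ F
  have k2 := (Complex.continuous_re.tendsto _).comp key
  have e0 : (((F.eval 0 ^ 2 + 1 / Real.pi *
      ∫ θ in (0 : ℝ)..(2 * Real.pi), F.eval (2 - 2 * Real.cos θ) ^ 2 : ℝ) : ℂ) *
      ((∫ z, ψ z / z.im ^ 2 : ℝ) : ℂ)).re = gauss F * ∫ z, ψ z / z.im ^ 2 := by
    rw [← Complex.ofReal_mul, Complex.ofReal_re]; rfl
  rw [e0] at k2
  refine k2.congr fun n => ?_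
  have hT : ∀ g, ∀ z ∈ HH, L (1 / 4 + t n ^ 2) g z =
      Pool.Agent.TH294.RG.sR (fun z => z.im) (1 / √(1 / 4 + t n ^ 2)) g z := by
    intro g z _
    have h2 : (1 / √(1 / 4 + t n ^ 2)) ^ 2 = 1 / (1 / 4 + t n ^ 2) := by
      rw [div_pow, Real.sq_sqrt (by positivity), one_pow]
    simp only [L, Pool.Agent.TH294.RG.sR, h2, lap]
    ring
  have s2 : ContDiffOn ℝ ∞ (fun w => f n w ^ 2) HH := (hf n).pow 2
  have sim : ContDiffOn ℝ ∞ (fun z : ℂ => z.im) HH := imCLM.contDiff.contDiffOn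
  have e1 : ∀ z ∈ HH, Pool.Agent.TH294.RG.opP (fun z => z.im) (1 / √(1 / 4 + t n ^ 2)) F
      (fun w => (f n w : ℂ) * (f n w : ℂ)) z =
      ((opF F (1 / 4 + t n ^ 2) (fun w => f n w ^ 2) z : ℝ) : ℂ) := by
    intro z hz
    simp only [opF, Pool.Agent.TH294.RG.opP, Polynomial.sum_def]
    push_cast
    refine Finset.sum_congr rfl fun i _ => ?_
    rw [Pool.Agent.TH294.RG.sL1_re hΩ sim _ s2
      (fun w _ => by push_cast; ring) i z hz, Pool.Agent.TH294.RG.sR_cg hΩ hT _ i z hz]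
  have w0 : ∀ z, Pool.Agent.TH294.RS.ww Complex.im (fun n => 1 / √(1 / 4 + t n ^ 2))
      (fun n z => (f n z : ℂ)) 0 n z = (f n z : ℂ) := fun z => rfl
  have v0 : Pool.Agent.TH294.RG.vv (Pool.Agent.TH294.RS.ww Complex.im
      (fun n => 1 / √(1 / 4 + t n ^ 2)) (fun n z => (f n z : ℂ))) 0 n =
      fun w => (f n w : ℂ) * (f n w : ℂ) := by
    funext z
    simp only [Pool.Agent.TH294.RG.vv, neg_zero, Int.natAbs_zero, pow_zero, one_mul, w0]
  have a1 : ∫ z, ((ψ z / z.im ^ 2 : ℝ) : ℂ) * (Pool.Agent.TH294.RG.opP Complex.im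
      (1 / √(1 / 4 + t n ^ 2)) F (Pool.Agent.TH294.RG.vv (Pool.Agent.TH294.RS.ww Complex.im
      (fun n => 1 / √(1 / 4 + t n ^ 2)) (fun n z => (f n z : ℂ))) 0 n) z *
      Pool.Agent.TH294.RG.opP Complex.im
      (1 / √(1 / 4 + t n ^ 2)) F (Pool.Agent.TH294.RG.vv (Pool.Agent.TH294.RS.ww Complex.im
      (fun n => 1 / √(1 / 4 + t n ^ 2)) (fun n z => (f n z : ℂ))) 0 n) z) =
      ((∫ z, ψ z * opF F (1 / 4 + t n ^ 2) (fun w => f n w ^ 2) z ^ 2 / z.im ^ 2 : ℝ) : ℂ) := by
    rw [← integral_complex_ofReal, v0]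
    congr 1; funext z
    by_cases hz : z ∈ HH
    · have := e1 z hz
      rw [show (Complex.im : ℂ → ℝ) = fun z => z.im from rfl, this]
      push_cast; ring
    · have : ψ z = 0 := Pool.Agent.TH294.RS.TF.zero hψ hz
      rw [this]; simp
  have a2 : ∫ z, ((ψ z / z.im ^ 2 : ℝ) : ℂ) * Pool.Agent.TH294.RS.F4
      (Pool.Agent.TH294.RS.ww Complex.im
      (fun n => 1 / √(1 / 4 + t n ^ 2)) (fun n z => (f n z : ℂ))) 0 0 0 0 n z =
      ((∫ z, ψ z * f n z ^ 4 / z.im ^ 2 : ℝ) : ℂ) := by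
    rw [← integral_complex_ofReal]
    congr 1; funext z
    simp only [Pool.Agent.TH294.RS.F4, w0]
    push_cast; ring
  simp only [Function.comp_def]
  rw [a1, a2]
  rw [show (3 : ℂ) = ((3 : ℝ) : ℂ) by norm_num, ← Complex.ofReal_mul, ← Complex.ofReal_sub,
    ← Complex.ofReal_mul, ← Complex.ofReal_sub, Complex.ofReal_re]

end Pool.Agent.Results.MP_a54f13_nt.SharpPowerSpectrum
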